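import Mathlib
import Pool.Agent.Helper950.WL.Dup

/-!
# The Weisfeiler-Leman dimension of semisimple groups is at most `log log n + O(1)`

Let `G` be a finite group without nontrivial abelian normal subgroups, let `m` be the number of
the simple direct factors of its socle (`IsSimpleFactor`), and let each of them be generated by `s`
elements (by the classification of the finite simple groups `s = 2` is enough; this is not used
here). If `m ≤ 2 ^ t` or `|G| ≤ 2 ^ (2 ^ t)`, and Duplicator wins the bijective game with
`k ≥ s + t + 5` pairs of pebbles on the groups `G` and `H`, then `G` and `H` are isomorphic. So the
dimension is at most `⌈log₂ m⌉ + s + 4`, and at most `⌈log₂ log₂ |G|⌉ + s + 4`.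

Proof. The factors `T i`, `i < m`, are the minimal normal subgroups of the minimal normal
subgroups of `G`; they commute with each other, are simple, are permuted by conjugation and have
trivial common centralizer, and `2 ^ m ≤ |G|`. Spoiler pebbles `s` elements of the product of the
factors whose components generate each factor, and for each bit `b < t` the part of the first of
these elements that belongs to the factors `T i` for which the `b`-th digit of `i` is `1`. In the
generated subgroup `K` the elements that centralize `T j` have, for every `i ≠ j`, a nontrivial
component in `T i`. An element `x` of `G` that commutes with them permutes the factors without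
changing any digit, so it fixes them all and centralizes all factors but `T j`. Now the generators
of `T j` are described by centralizers, so every element of `T j` is fixed in all positions in
which the elements above stay pebbled, and the elements of `G` are recognised by their action on
the factors. The number of pebbles that are needed in addition does not depend on the number of
factors, although the descriptions refer to all elements of `K`: a word in pebbled elements is
recognised with three more pebbles.
-/

set_option autoImplicit false

namespace Pool.Agent.Results.MP_7346c2_lc.LogLogDimension

open Pool.Agent.Helper950.WL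

/-- Groups without abelian normal subgroups are identified with `log log n + O(1)` pebbles. -/
theorem result (s t k : ℕ) (hk : s + t + 5 ≤ k) (G : Type) [Group G] [Finite G]
    (hG : ∀ N : Subgroup G, N.Normal → (∀ x ∈ N, ∀ y ∈ N, x * y = y * x) → N = ⊥)
    (hs : ∀ S : Subgroup G, IsSimpleFactor S →
      ∃ c : Fin s → G, Subgroup.closure (Set.range c) = S)
    (hn : Nat.card {S : Subgroup G // IsSimpleFactor S} ≤ 2 ^ t ∨ Nat.card G ≤ 2 ^ 2 ^ t)
    (H : Type) [Group H] [Finite H]
    (h : ∃ R : (Fin k → Option G) → (Fin k → Option H) → Prop,
      R (fun _ => none) (fun _ => none) ∧
      ∀ a b, R a b →
        (∀ i, a i = none ↔ b i = none) ∧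
        (∀ i j, (∃ x, a i = some x ∧ a j = some x) ↔ (∃ x, b i = some x ∧ b j = some x)) ∧
        (∀ i j l, (∃ x y, a i = some x ∧ a j = some y ∧ a l = some (x * y)) ↔
                  (∃ x y, b i = some x ∧ b j = some y ∧ b l = some (x * y))) ∧
        (∀ i, ∃ f : G ≃ H, ∀ g,
          R (Function.update a i (some g)) (Function.update b i (some (f g))))) :
    Nonempty (G ≃* H) :=
  semisimple_main hG hs hn hk h

end Pool.Agent.Results.MP_7346c2_lc.LogLogDimension
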